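import Pool.Agent.Y28.LR.Stm

set_option autoImplicit false

/-!
# Chains of separating sets and products of labels (for MP_a112e0_al)
-/

namespace Pool.Agent.Y31.LR

open Set Pointwise Pool.Agent.Y28.LR

section chains

variable {α : Type} [PartialOrder α]

theorem list_unique (l₁ l₂ : List α) (h₁ : l₁.Pairwise (fun s t => t < s))
    (h₂ : l₂.Pairwise (fun s t => t < s)) (h : ∀ s, s ∈ l₁ ↔ s ∈ l₂) : l₁ = l₂ := by
  induction l₁ generalizing l₂ with
  | nil =>
    rw [eq_comm, List.eq_nil_iff_forall_not_mem]
    intro a ha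
    have := (h a).mpr ha
    simp at this
  | cons a l₁ ih =>
    cases l₂ with
    | nil =>
      have := (h a).mp (by simp)
      simp at this
    | cons b l₂ =>
      rw [List.pairwise_cons] at h₁ h₂
      have hab : a = b := by
        have ha : a = b ∨ a ∈ l₂ := by simpa using (h a).mp (by simp)
        have hb : b = a ∨ b ∈ l₁ := by simpa using (h b).mpr (by simp)
        rcases ha with ha | ha
        · exact ha
        · rcases hb with hb | hb
          · exact hb.symm
          · exact absurd (h₁.1 b hb) (lt_asymm (h₂.1 a ha))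
      subst hab
      rw [ih l₂ h₁.2 h₂.2]
      intro s
      constructor
      · intro hs
        have : s = a ∨ s ∈ l₂ := by simpa using (h s).mp (by simp [hs])
        rcases this with h3 | h3
        · exact absurd (h₁.1 s hs) (by rw [h3]; exact lt_irrefl a)
        · exact h3
      · intro hs
        have : s = a ∨ s ∈ l₁ := by simpa using (h s).mpr (by simp [hs])
        rcases this with h3 | h3
        · exact absurd (h₂.1 s hs) (by rw [h3]; exact lt_irrefl a)
        · exact h3

theorem list_exists (n : ℕ) (c : Finset α) (hn : c.card = n)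
    (hc : ∀ s ∈ c, ∀ t ∈ c, s ≤ t ∨ t ≤ s) :
    ∃ l : List α, l.Pairwise (fun s t => t < s) ∧ ∀ s, s ∈ l ↔ s ∈ c := by
  classical
  induction n generalizing c with
  | zero =>
    refine ⟨[], List.Pairwise.nil, ?_⟩
    intro s
    rw [Finset.card_eq_zero.mp hn]
    simp
  | succ n ih =>
    have hne : c.Nonempty := Finset.card_pos.mp (by omega)
    obtain ⟨m, hm⟩ := c.exists_maximal hne
    have hmc : m ∈ c := hm.1
    obtain ⟨l, hl1, hl2⟩ := ih (c.erase m) (by rw [Finset.card_erase_of_mem hmc]; omega)
      (fun s hs t ht => hc s (Finset.mem_of_mem_erase hs) t (Finset.mem_of_mem_erase ht))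
    refine ⟨m :: l, ?_, ?_⟩
    · rw [List.pairwise_cons]
      refine ⟨?_, hl1⟩
      intro t ht
      have ht' := (hl2 t).mp ht
      have htc := Finset.mem_of_mem_erase ht'
      have hne' := Finset.ne_of_mem_erase ht'
      rcases hc t htc m hmc with h | h
      · exact lt_of_le_of_ne h hne'
      · exact absurd (le_antisymm (hm.2 htc h) h) hne'
    · intro s
      rw [List.mem_cons, hl2, Finset.mem_erase]
      constructor
      · rintro (h | h)
        · rw [h]; exact hmc
        · exact h.2
      · intro h
        by_cases hs : s = m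
        · exact Or.inl hs
        · exact Or.inr ⟨hs, h⟩

end chains

theorem list : P_list := by
  intro V G _ _ E hE p q
  have hfin := hE.finite p q
  obtain ⟨l, hl1, hl2⟩ := list_exists (α := Set V) _ hfin.toFinset rfl (by
    intro s hs t ht
    rw [Set.Finite.mem_toFinset] at hs ht
    rcases hE.nested s hs.1 t ht.1 with h | h | h | h
    · exact Or.inl h
    · exact Or.inr h
    · exact absurd ht.2.2 (Set.disjoint_left.mp h hs.2.2)
    · have : p ∈ s ∪ t := by rw [h]; trivial
      rcases this with h' | h'
      · exact absurd h' hs.2.1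
      · exact absurd h' ht.2.1)
  refine ⟨l, hl1, ?_⟩
  intro s
  rw [hl2, Set.Finite.mem_toFinset]
  rfl

theorem w : P_w := by
  classical
  intro V G N _ _ _ E hE ℓ hℓ
  choose L hL1 hL2 using fun p q : V => list V G E hE p q
  -- comparison of two members through three points
  have key : ∀ a ∈ E, ∀ b ∈ E, ∀ x y z : V, x ∈ a → x ∈ b → y ∉ a → y ∉ b → z ∈ a → z ∉ b →
      b ⊂ a := by
    intro a ha b hb x y z hxa hxb hya hyb hza hzb
    have hnot : ¬ a ⊆ b := fun h => hzb (h hza)
    rcases hE.nested b hb a ha with h | h | h | h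
    · exact ⟨h, hnot⟩
    · exact absurd h hnot
    · exact absurd hxa (Set.disjoint_left.mp h hxb)
    · have : y ∈ b ∪ a := by rw [h]; trivial
      rcases this with h' | h'
      · exact absurd h' hyb
      · exact absurd h' hya
  refine ⟨fun p q => ((L p q).map ℓ).prod, ?_, ?_⟩
  · intro p q r
    set LA := (L p q).filter (fun s => r ∈ s) with hLA
    set LD := (L p q).filter (fun s => r ∉ s) with hLD
    set LB := (L q r).filter (fun s => p ∉ s) with hLB
    set LD' := (L q r).filter (fun s => p ∈ s) with hLD'
    have mA : ∀ s, s ∈ LA ↔ s ∈ E ∧ p ∉ s ∧ q ∈ s ∧ r ∈ s := by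
      intro s
      rw [hLA, List.mem_filter, hL2]
      simp only [decide_eq_true_eq]
      tauto
    have mD : ∀ s, s ∈ LD ↔ s ∈ E ∧ p ∉ s ∧ q ∈ s ∧ r ∉ s := by
      intro s
      rw [hLD, List.mem_filter, hL2]
      simp only [decide_eq_true_eq]
      tauto
    have mB : ∀ s, s ∈ LB ↔ s ∈ E ∧ q ∉ s ∧ r ∈ s ∧ p ∉ s := by
      intro s
      rw [hLB, List.mem_filter, hL2]
      simp only [decide_eq_true_eq]
      tauto
    have mD' : ∀ s, s ∈ LD' ↔ s ∈ E ∧ q ∉ s ∧ r ∈ s ∧ p ∈ s := by
      intro s
      rw [hLD', List.mem_filter, hL2]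
      simp only [decide_eq_true_eq]
      tauto
    have pA : LA.Pairwise (fun s t => t < s) := (hL1 p q).filter _
    have pD : LD.Pairwise (fun s t => t < s) := (hL1 p q).filter _
    have pB : LB.Pairwise (fun s t => t < s) := (hL1 q r).filter _
    have pD' : LD'.Pairwise (fun s t => t < s) := (hL1 q r).filter _
    have e1 : L p q = LA ++ LD := by
      apply list_unique _ _ (hL1 p q)
      · rw [List.pairwise_append]
        refine ⟨pA, pD, ?_⟩
        intro a ha d hd
        have ha' := (mA a).mp ha
        have hd' := (mD d).mp hd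
        exact key a ha'.1 d hd'.1 q p r ha'.2.2.1 hd'.2.2.1 ha'.2.1 hd'.2.1 ha'.2.2.2 hd'.2.2.2
      · intro s
        rw [List.mem_append, mA, mD, hL2]
        tauto
    have e2 : L q r = LD' ++ LB := by
      apply list_unique _ _ (hL1 q r)
      · rw [List.pairwise_append]
        refine ⟨pD', pB, ?_⟩
        intro a ha d hd
        have ha' := (mD' a).mp ha
        have hd' := (mB d).mp hd
        exact key a ha'.1 d hd'.1 r q p ha'.2.2.1 hd'.2.2.1 ha'.2.1 hd'.2.1 ha'.2.2.2 hd'.2.2.2
      · intro s
        rw [List.mem_append, mD', mB, hL2]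
        tauto
    have e3 : L p r = LA ++ LB := by
      apply list_unique _ _ (hL1 p r)
      · rw [List.pairwise_append]
        refine ⟨pA, pB, ?_⟩
        intro a ha d hd
        have ha' := (mA a).mp ha
        have hd' := (mB d).mp hd
        exact key a ha'.1 d hd'.1 r p q ha'.2.2.2 hd'.2.2.1 ha'.2.1 hd'.2.2.2 ha'.2.2.1 hd'.2.1
      · intro s
        rw [List.mem_append, mA, mB, hL2]
        tauto
    have e4 : LD' = (LD.map (fun s => sᶜ)).reverse := by
      apply list_unique _ _ pD'
      · rw [List.pairwise_reverse, List.pairwise_map]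
        refine pD.imp ?_
        intro s t hst
        exact compl_lt_compl_iff_lt.mpr hst
      · intro s
        rw [List.mem_reverse, List.mem_map, mD']
        constructor
        · rintro ⟨h1, h2, h3, h4⟩
          exact ⟨sᶜ, (mD _).mpr ⟨hE.compl_mem s h1, fun h => h h4, h2, fun h => h h3⟩,
            compl_compl s⟩
        · rintro ⟨t, ht, rfl⟩
          have ht' := (mD t).mp ht
          exact ⟨hE.compl_mem t ht'.1, fun h => h ht'.2.2.1, ht'.2.2.2, ht'.2.1⟩
    have e5 : (LD'.map ℓ).prod = ((LD.map ℓ).prod)⁻¹ := by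
      rw [List.prod_inv_reverse, e4, List.map_reverse, List.map_map, List.map_map]
      congr 2
      apply List.map_congr_left
      intro s hs
      exact hℓ s ((mD s).mp hs).1
    show ((L p q).map ℓ).prod * ((L q r).map ℓ).prod = ((L p r).map ℓ).prod
    rw [e1, e2, e3, List.map_append, List.map_append, List.map_append, List.prod_append,
      List.prod_append, List.prod_append, e5]
    group
  · intro p q l hl1 hl2
    have : L p q = l := list_unique _ _ (hL1 p q) hl1 (fun s => by rw [hL2, hl2])
    show ((L p q).map ℓ).prod = (l.map ℓ).prod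
    rw [this]

end Pool.Agent.Y31.LR
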