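import Pool.Agent.Y28.LR.Stm

set_option autoImplicit false

/-!
# Finiteness of tight cuts in a connected graph (for MP_a112e0_al)
-/

namespace Pool.Agent.Y31.LR

open Set Pointwise Pool.Agent.Y28.LR

theorem tight : P_tight := by
  intro V X hX n
  induction n generalizing X with
  | zero =>
    intro x y hxy
    refine Set.finite_empty.subset ?_
    rintro s ⟨hx, hy, -, -, hfin, hn⟩
    have h1 : (x, y) ∈ bd X s := ⟨hxy, hx, hy⟩
    have h2 : (bd X s).ncard = 0 := Nat.le_zero.mp hn
    rw [Set.ncard_eq_zero hfin] at h2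
    rw [h2] at h1
    exact h1
  | succ n ih =>
    intro x y hxy
    set X' : SimpleGraph V := X.deleteEdges {s(x, y)} with hX'def
    have hadj : ∀ a b : V, X'.Adj a b ↔ X.Adj a b ∧ s(a, b) ≠ s(x, y) := by
      intro a b
      rw [hX'def, SimpleGraph.deleteEdges_adj]
      simp only [Set.mem_singleton_iff, ne_eq]
    by_cases hr : X'.Reachable x y
    · -- `X'` is connected
      have hpre : X'.Preconnected := by
        intro u v
        obtain ⟨p⟩ := hX.preconnected u v
        induction p with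
        | nil => exact SimpleGraph.Reachable.refl _
        | @cons a b c h p ih2 =>
          refine SimpleGraph.Reachable.trans ?_ ih2
          by_cases he : s(a, b) = s(x, y)
          · rcases Sym2.eq_iff.mp he with ⟨h1, h2⟩ | ⟨h1, h2⟩
            · rw [h1, h2]; exact hr
            · rw [h1, h2]; exact hr.symm
          · exact ((hadj a b).mpr ⟨h, he⟩).reachable
      have hX'c : X'.Connected := by
        have : Nonempty V := hX.nonempty
        exact ⟨hpre⟩
      obtain ⟨w⟩ := hr
      have hfin : (⋃ d ∈ {d | d ∈ w.darts}, {s : Set V | d.fst ∈ s ∧ d.snd ∉ s ∧ Conn X' s ∧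
          Conn X' sᶜ ∧ (bd X' s).Finite ∧ (bd X' s).ncard ≤ n}).Finite :=
        (List.finite_toSet w.darts).biUnion (fun d _ => ih X' hX'c d.fst d.snd d.adj)
      refine hfin.subset ?_
      rintro s ⟨hx, hy, hc1, hc2, hf, hn⟩
      obtain ⟨d, hd, hd1, hd2⟩ := w.exists_boundary_dart s hx hy
      rw [Set.mem_iUnion₂]
      have hbd : bd X' s = bd X s \ {(x, y)} := by
        ext ⟨a, b⟩
        constructor
        · rintro ⟨h1, h2, h3⟩
          have h4 := (hadj a b).mp h1
          refine ⟨⟨h4.1, h2, h3⟩, ?_⟩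
          intro h5
          rw [Set.mem_singleton_iff, Prod.mk.injEq] at h5
          exact h4.2 (by rw [h5.1, h5.2])
        · rintro ⟨⟨h1, h2, h3⟩, h4⟩
          refine ⟨(hadj a b).mpr ⟨h1, ?_⟩, h2, h3⟩
          intro h5
          rcases Sym2.eq_iff.mp h5 with ⟨h6, h7⟩ | ⟨h6, h7⟩
          · exact h4 (by rw [Set.mem_singleton_iff, h6, h7])
          · have h2' : a ∈ s := h2
            rw [h6] at h2'
            exact hy h2'
      refine ⟨d, hd, hd1, hd2, ?_, ?_, ?_, ?_⟩
      · intro u hu hne hus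
        obtain ⟨a, ha, b, hb, hbu, hab⟩ := hc1 u hu hne hus
        refine ⟨a, ha, b, hb, hbu, (hadj a b).mpr ⟨hab, ?_⟩⟩
        intro h5
        rcases Sym2.eq_iff.mp h5 with ⟨h6, h7⟩ | ⟨h6, h7⟩
        · rw [h7] at hb; exact hy hb
        · have ha' := hu ha
          rw [h6] at ha'; exact hy ha'
      · intro u hu hne hus
        obtain ⟨a, ha, b, hb, hbu, hab⟩ := hc2 u hu hne hus
        refine ⟨a, ha, b, hb, hbu, (hadj a b).mpr ⟨hab, ?_⟩⟩
        intro h5
        rcases Sym2.eq_iff.mp h5 with ⟨h6, h7⟩ | ⟨h6, h7⟩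
        · have ha' := hu ha
          rw [h6] at ha'; exact ha' hx
        · rw [h7] at hb; exact hb hx
      · rw [hbd]
        exact hf.subset Set.sdiff_subset
      · rw [hbd, Set.ncard_sdiff_singleton_of_mem (show (x, y) ∈ bd X s from ⟨hxy, hx, hy⟩)]
        omega
    · refine (Set.finite_singleton {z | X'.Reachable x z}).subset ?_
      rintro s ⟨hx, hy, hc1, hc2, -, -⟩
      rw [Set.mem_singleton_iff]
      have h1 : s ⊆ {z | X'.Reachable x z} := by
        by_contra hcon
        obtain ⟨a, ha, b, hb, hbu, hab⟩ := hc1 (s ∩ {z | X'.Reachable x z}) Set.inter_subset_left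
          ⟨x, hx, SimpleGraph.Reachable.refl _⟩ (fun h => hcon (Set.inter_eq_left.mp h))
        have hne : s(a, b) ≠ s(x, y) := by
          intro h5
          rcases Sym2.eq_iff.mp h5 with ⟨h6, h7⟩ | ⟨h6, h7⟩
          · rw [h7] at hb; exact hy hb
          · have ha' := ha.1
            rw [h6] at ha'; exact hy ha'
        have : X'.Adj a b := (hadj a b).mpr ⟨hab, hne⟩
        have ha2 : X'.Reachable x a := ha.2
        exact hbu ⟨hb, ha2.trans this.reachable⟩
      have h2 : sᶜ ⊆ {z | X'.Reachable x z}ᶜ := by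
        by_contra hcon
        obtain ⟨a, ha, b, hb, hbu, hab⟩ := hc2 (sᶜ ∩ {z | X'.Reachable x z}ᶜ)
          Set.inter_subset_left ⟨y, hy, hr⟩ (fun h => hcon (Set.inter_eq_left.mp h))
        have hne : s(a, b) ≠ s(x, y) := by
          intro h5
          rcases Sym2.eq_iff.mp h5 with ⟨h6, h7⟩ | ⟨h6, h7⟩
          · have ha' := ha.1
            rw [h6] at ha'; exact ha' hx
          · rw [h7] at hb; exact hb hx
        have hadj' : X'.Adj a b := (hadj a b).mpr ⟨hab, hne⟩
        have hb2 : X'.Reachable x b := by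
          by_contra hb3
          exact hbu ⟨hb, hb3⟩
        exact ha.2 (hb2.trans hadj'.symm.reachable)
      exact Set.Subset.antisymm h1 (Set.compl_subset_compl.mp h2)

theorem sep : P_sep := by
  intro V X hX n p q
  obtain ⟨w⟩ := hX.preconnected q p
  have hfin : (⋃ d ∈ {d | d ∈ w.darts}, {s : Set V | d.fst ∈ s ∧ d.snd ∉ s ∧ Conn X s ∧
      Conn X sᶜ ∧ (bd X s).Finite ∧ (bd X s).ncard ≤ n}).Finite :=
    (List.finite_toSet w.darts).biUnion (fun d _ => tight V X hX n d.fst d.snd d.adj)
  refine hfin.subset ?_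
  rintro t ⟨hp, hq, h⟩
  obtain ⟨d, hd, hd1, hd2⟩ := w.exists_boundary_dart t hq hp
  rw [Set.mem_iUnion₂]
  exact ⟨d, hd, hd1, hd2, h⟩

theorem cross : P_cross := by
  intro V X hX n s hs
  -- finitely many `t` separate `p` and `q` in either direction
  have hsep2 : ∀ p q : V, {t : Set V | (p ∈ t ∧ q ∉ t ∨ q ∈ t ∧ p ∉ t) ∧ Conn X t ∧ Conn X tᶜ ∧
      (bd X t).Finite ∧ (bd X t).ncard ≤ n}.Finite := by
    intro p q
    refine ((sep V X hX n p q).union (sep V X hX n q p)).subset ?_
    rintro t ⟨h | h, h'⟩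
    · exact Or.inr ⟨h.2, h.1, h'⟩
    · exact Or.inl ⟨h.2, h.1, h'⟩
  by_cases hbd : (bd X s).Nonempty
  · obtain ⟨⟨x0, y0⟩, he0⟩ := hbd
    set B : Set V := Prod.fst '' bd X s ∪ Prod.snd '' bd X s with hB
    have hBfin : B.Finite := (hs.image _).union (hs.image _)
    have hfin := hBfin.biUnion (fun z _ => hsep2 x0 z)
    refine hfin.subset ?_
    rintro t ⟨hnest, hc1, hc2, hf, hn⟩
    by_contra hcon
    rw [Set.mem_iUnion₂] at hcon
    push Not at hcon
    have hside : ∀ z ∈ B, (x0 ∈ t ↔ z ∈ t) := by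
      intro z hz
      by_contra h
      apply hcon z hz
      refine ⟨?_, hc1, hc2, hf, hn⟩
      by_cases h1 : x0 ∈ t <;> by_cases h2 : z ∈ t <;> simp_all
    have hB1 : ∀ x y : V, (x, y) ∈ bd X s → x ∈ B := fun x y h => Or.inl ⟨(x, y), h, rfl⟩
    have hB2 : ∀ x y : V, (x, y) ∈ bd X s → y ∈ B := fun x y h => Or.inr ⟨(x, y), h, rfl⟩
    by_cases hx0 : x0 ∈ t
    · -- all of `B` in `t`
      apply hnest
      by_cases h1 : (tᶜ ∩ s).Nonempty
      · by_cases h2 : tᶜ ∩ s = tᶜ
        · right; right; right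
          have h3 : tᶜ ⊆ s := Set.inter_eq_left.mp h2
          ext z
          constructor
          · intro _; trivial
          · intro _
            by_cases hz : z ∈ t
            · exact Or.inl hz
            · exact Or.inr (h3 hz)
        · obtain ⟨a, ha, b, hb, hbu, hab⟩ := hc2 (tᶜ ∩ s) Set.inter_subset_left h1 h2
          exfalso
          have hbs : b ∉ s := fun h => hbu ⟨hb, h⟩
          exact ha.1 ((hside a (hB1 a b ⟨hab, ha.2, hbs⟩)).mp hx0)
      · right; left
        intro z hz
        by_contra hzt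
        exact h1 ⟨z, hzt, hz⟩
    · apply hnest
      by_cases h1 : (t ∩ s).Nonempty
      · by_cases h2 : t ∩ s = t
        · left
          exact Set.inter_eq_left.mp h2
        · obtain ⟨a, ha, b, hb, hbu, hab⟩ := hc1 (t ∩ s) Set.inter_subset_left h1 h2
          exfalso
          have hbs : b ∉ s := fun h => hbu ⟨hb, h⟩
          exact hx0 ((hside a (hB1 a b ⟨hab, ha.2, hbs⟩)).mpr ha.1)
      · right; right; left
        rw [Set.disjoint_iff_inter_eq_empty]
        exact Set.not_nonempty_iff_eq_empty.mp h1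
  · -- no edge leaves `s`
    refine Set.finite_empty.subset ?_
    rintro t ⟨hnest, -⟩
    exfalso
    apply hnest
    by_cases hse : s.Nonempty
    · left
      have hall : s = univ := by
        rw [Set.eq_univ_iff_forall]
        intro z
        by_contra hz
        obtain ⟨a, ha⟩ := hse
        obtain ⟨w⟩ := hX.preconnected a z
        obtain ⟨d, -, hd1, hd2⟩ := w.exists_boundary_dart s ha hz
        exact hbd ⟨(d.fst, d.snd), d.adj, hd1, hd2⟩
      rw [hall]
      exact Set.subset_univ _
    · right; left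
      rw [Set.not_nonempty_iff_eq_empty] at hse
      rw [hse]
      exact Set.empty_subset _

end Pool.Agent.Y31.LR
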